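import Pool.Agent.Y462.EI.Stm2

/-!
# EI-COLX (job 10332, helper96): multiple HNN extensions as directed colimits
-/

set_option autoImplicit false

namespace Pool.Agent.Y96.EI

open Pool.Agent.Y462.SS (Closed)
open Pool.Agent.Y462.EI

section colx

variable {M E : Type} [Group M] {H : E → Type} [∀ e, Group (H e)] (α β : ∀ e, H e →* M)

/-- the finite stages -/
abbrev Ix (H : E → Type) : Type := Finset (Σ e, H e) × Finset E

/-- the restricted edge maps -/
abbrev aF (i : Ix H) (e : i.2) : cl i.1 e.1 →* M := (α e.1).comp (cl i.1 e.1).subtype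

/-- the group of a stage -/
abbrev GX (i : Ix H) : Type := MX (aF α i) (aF β i)

theorem cl_mono {F F' : Finset (Σ e, H e)} (h : F ⊆ F') (e : E) : cl F e ≤ cl F' e :=
  Subgroup.closure_mono fun _ hx => h hx

/-- the transition maps -/
noncomputable def tr (i j : Ix H) (h : i ≤ j) : GX α β i →* GX α β j :=
  MX.lift (aF α i) (aF β i) (MX.of (aF α j) (aF β j))
    (fun e => MX.st (aF α j) (aF β j) ⟨e.1, h.2 e.2⟩)
    (fun e x => MX.rel (aF α j) (aF β j) ⟨e.1, h.2 e.2⟩ ⟨x.1, cl_mono h.1 e.1 x.2⟩)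

theorem tr_of (i j : Ix H) (h : i ≤ j) (m : M) :
    tr α β i j h (MX.of (aF α i) (aF β i) m) = MX.of (aF α j) (aF β j) m :=
  MX.lift_of _ _ _ _ _ m

theorem tr_st (i j : Ix H) (h : i ≤ j) (e : i.2) :
    tr α β i j h (MX.st (aF α i) (aF β i) e) = MX.st (aF α j) (aF β j) ⟨e.1, h.2 e.2⟩ :=
  MX.lift_st _ _ _ _ _ e

/-- the maps to the colimit -/
noncomputable def gg (i : Ix H) : GX α β i →* MX α β :=
  MX.lift (aF α i) (aF β i) (MX.of α β) (fun e => MX.st α β e.1) (fun e x => MX.rel α β e.1 x.1)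

theorem gg_of (i : Ix H) (m : M) : gg α β i (MX.of (aF α i) (aF β i) m) = MX.of α β m :=
  MX.lift_of _ _ _ _ _ m

theorem gg_st (i : Ix H) (e : i.2) : gg α β i (MX.st (aF α i) (aF β i) e) = MX.st α β e.1 :=
  MX.lift_st _ _ _ _ _ e

theorem gg_tr (i j : Ix H) (h : i ≤ j) (x : GX α β i) : gg α β j (tr α β i j h x) = gg α β i x := by
  have : (gg α β j).comp (tr α β i j h) = gg α β i := by
    apply MX.hom_ext
    · intro m
      rw [MonoidHom.comp_apply, tr_of, gg_of, gg_of]
    · intro e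
      rw [MonoidHom.comp_apply, tr_st, gg_st, gg_st]
  exact DFunLike.congr_fun this x

theorem tr_id (i : Ix H) (h : i ≤ i) (x : GX α β i) : tr α β i i h x = x := by
  have : tr α β i i h = MonoidHom.id _ := by
    apply MX.hom_ext
    · intro m
      rw [tr_of, MonoidHom.id_apply]
    · intro e
      rw [tr_st, MonoidHom.id_apply]
  rw [this]
  rfl

theorem tr_tr (i j k : Ix H) (h : i ≤ j) (h' : j ≤ k) (x : GX α β i) :
    tr α β j k h' (tr α β i j h x) = tr α β i k (h.trans h') x := by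
  have : (tr α β j k h').comp (tr α β i j h) = tr α β i k (h.trans h') := by
    apply MX.hom_ext
    · intro m
      rw [MonoidHom.comp_apply, tr_of, tr_of, tr_of]
    · intro e
      rw [MonoidHom.comp_apply, tr_st, tr_st, tr_st]
  exact DFunLike.congr_fun this x

omit [∀ e, Group (H e)] in
theorem dir (i j : Ix H) : ∃ k, i ≤ k ∧ j ≤ k := by
  classical
  exact ⟨(i.1 ∪ j.1, i.2 ∪ j.2), ⟨Finset.subset_union_left, Finset.subset_union_left⟩,
    ⟨Finset.subset_union_right, Finset.subset_union_right⟩⟩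

/-- the elements which come from a stage -/
def NN : Subgroup (MX α β) where
  carrier := {y | ∃ i, ∃ x : GX α β i, gg α β i x = y}
  one_mem' := ⟨(∅, ∅), 1, map_one _⟩
  mul_mem' := by
    rintro _ _ ⟨i, x, rfl⟩ ⟨j, y, rfl⟩
    obtain ⟨k, hi, hj⟩ := dir i j
    exact ⟨k, tr α β i k hi x * tr α β j k hj y, by rw [map_mul, gg_tr, gg_tr]⟩
  inv_mem' := by
    rintro _ ⟨i, x, rfl⟩
    exact ⟨i, x⁻¹, map_inv _ _⟩

theorem surj (y : MX α β) : ∃ i, ∃ x : GX α β i, gg α β i x = y := by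
  have h := MX.range_eq α β (NN α β).subtype
    (fun m => ⟨⟨MX.of α β m, ⟨(∅, ∅), MX.of _ _ m, gg_of α β _ m⟩⟩, rfl⟩)
    (fun e => ⟨⟨MX.st α β e, ⟨(∅, {e}), MX.st _ _ ⟨e, Finset.mem_singleton_self e⟩,
      gg_st α β _ _⟩⟩, rfl⟩)
  obtain ⟨⟨z, hz⟩, rfl⟩ := h y
  exact hz

/-- the eventually trivial sequences -/
def EE : Subgroup (∀ j : Ix H, GX α β j) where
  carrier := {u | ∃ k, ∀ j, k ≤ j → u j = 1}
  one_mem' := ⟨(∅, ∅), fun _ _ => rfl⟩
  mul_mem' := by
    rintro u v ⟨k, hk⟩ ⟨l, hl⟩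
    obtain ⟨m, hm, hm'⟩ := dir k l
    exact ⟨m, fun j hj => by rw [Pi.mul_apply, hk j (hm.trans hj), hl j (hm'.trans hj), mul_one]⟩
  inv_mem' := by
    rintro u ⟨k, hk⟩
    exact ⟨k, fun j hj => by rw [Pi.inv_apply, hk j hj, inv_one]⟩

instance EE_normal : (EE α β).Normal := by
  refine ⟨?_⟩
  rintro u ⟨k, hk⟩ v
  exact ⟨k, fun j hj => by
    rw [Pi.mul_apply, Pi.mul_apply, Pi.inv_apply, hk j hj, mul_one, mul_inv_cancel]⟩

theorem mk_eq {u v : ∀ j : Ix H, GX α β j} (k : Ix H) (h : ∀ j, k ≤ j → u j = v j) :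
    QuotientGroup.mk' (EE α β) u = QuotientGroup.mk' (EE α β) v := by
  refine QuotientGroup.eq.2 ⟨k, fun j hj => ?_⟩
  rw [Pi.mul_apply, Pi.inv_apply, h j hj, inv_mul_cancel]

open Classical in
/-- the sequence of a stable letter -/
noncomputable def ss (e : E) (j : Ix H) : GX α β j :=
  if h : e ∈ j.2 then MX.st (aF α j) (aF β j) ⟨e, h⟩ else 1

/-- the map from the colimit to the germs -/
noncomputable def PP : MX α β →* (∀ j : Ix H, GX α β j) ⧸ EE α β :=
  MX.lift α β ((QuotientGroup.mk' (EE α β)).comp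
      (MonoidHom.pi fun j => MX.of (aF α j) (aF β j)))
    (fun e => QuotientGroup.mk' (EE α β) (ss α β e)) (by
    intro e h
    rw [MonoidHom.comp_apply, MonoidHom.comp_apply, ← map_mul, ← map_mul]
    refine mk_eq α β ({⟨e, h⟩}, {e}) fun j hj => ?_
    have he : e ∈ j.2 := hj.2 (Finset.mem_singleton_self e)
    have hh : h ∈ cl j.1 e := Subgroup.subset_closure (hj.1 (Finset.mem_singleton_self _))
    have h1 : ss α β e j = MX.st (aF α j) (aF β j) ⟨e, he⟩ := dif_pos he
    rw [Pi.mul_apply, Pi.mul_apply, h1]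
    exact MX.rel (aF α j) (aF β j) ⟨e, he⟩ ⟨h, hh⟩)

open Classical in
/-- the germ of an element of a stage -/
noncomputable def tt (i : Ix H) : GX α β i →* ∀ j : Ix H, GX α β j :=
  MonoidHom.pi fun j => if h : i ≤ j then tr α β i j h else 1

open Classical in
theorem tt_apply (i j : Ix H) (h : i ≤ j) (x : GX α β i) : tt α β i x j = tr α β i j h x := by
  show (if h : i ≤ j then tr α β i j h else 1) x = _
  rw [dif_pos h]

theorem germ (i : Ix H) (x : GX α β i) :
    PP α β (gg α β i x) = QuotientGroup.mk' (EE α β) (tt α β i x) := by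
  have : (PP α β).comp (gg α β i) = (QuotientGroup.mk' (EE α β)).comp (tt α β i) := by
    apply MX.hom_ext
    · intro m
      rw [MonoidHom.comp_apply, MonoidHom.comp_apply, gg_of]
      unfold PP
      rw [MX.lift_of, MonoidHom.comp_apply]
      refine mk_eq α β i fun j hj => ?_
      rw [tt_apply α β i j hj, tr_of]
      rfl
    · intro e
      rw [MonoidHom.comp_apply, MonoidHom.comp_apply, gg_st]
      unfold PP
      rw [MX.lift_st]
      refine mk_eq α β i fun j hj => ?_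
      rw [tt_apply α β i j hj, tr_st]
      exact dif_pos _
  exact DFunLike.congr_fun this x

theorem kern (i : Ix H) (x : GX α β i) (hx : gg α β i x = 1) : ∃ j, ∃ h : i ≤ j, tr α β i j h x = 1 := by
  have h1 := germ α β i x
  rw [hx, map_one] at h1
  obtain ⟨k, hk⟩ := (QuotientGroup.eq_one_iff _).1 h1.symm
  obtain ⟨j, hi, hj⟩ := dir i k
  refine ⟨j, hi, ?_⟩
  rw [← tt_apply α β i j hi]
  exact hk j hj

end colx

theorem t_colx : S_COLX := by
  intro C hC M E _ H _ α β h
  exact hC.colim (Ix H) dir (fun i => GX α β i) (fun i j hij => tr α β i j hij) (MX α β)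
    (fun i => gg α β i) (fun i hi x => tr_id α β i hi x)
    (fun i j k hij hjk x => tr_tr α β i j k hij hjk x) (fun i j hij x => gg_tr α β i j hij x)
    (surj α β) (fun i x hx => kern α β i x hx) (fun i => h i.1 i.2)

end Pool.Agent.Y96.EI
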